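import Pool.Agent.Helper346.CD.FinDefs

/-!
The hypersurfaces of the family.
-/

set_option autoImplicit false

namespace Pool.Agent.Y153.CDR

open MvPolynomial

/-- The polynomial `y² - disc(e) z² - ∏ⱼ (rⱼ³ + e₀ rⱼ² + e₁ rⱼ + e₂)` in the variables
`e₀ = X 0`, `e₁ = X 1`, `e₂ = X 2`, `y = X 3`, `z = X 4`, where `disc(e)` is the discriminant of
the cubic polynomial `T³ + e₀ T² + e₁ T + e₂`. -/
noncomputable def hyp (r : Fin 16 → ℂ) : MvPolynomial (Fin (4 + 1)) ℂ :=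
  X 3 ^ 2 - (X 0 ^ 2 * X 1 ^ 2 - 4 * X 1 ^ 3 - 4 * X 0 ^ 3 * X 2 + 18 * X 0 * X 1 * X 2 -
    27 * X 2 ^ 2) * X 4 ^ 2 - ∏ j, (C (r j) ^ 3 + X 0 * C (r j) ^ 2 + X 1 * C (r j) + X 2)

end Pool.Agent.Y153.CDR
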