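import Pool.Agent.Helper346.CD.K1

/-!
The hypersurface for sixteen arbitrary constants (helper153; after `Pool.Agent.Helper346.CD.K1`).
-/

set_option autoImplicit false

namespace Pool.Agent.Y153.CDR

open MvPolynomial Pool.Agent.Helper346.CD

/-- the polynomial `y² - disc z² - ∏ P(rⱼ)` with `e = (X 0, X 1, X 2)`, `y = X 3`, `z = X 4` -/
noncomputable def fR (r : Fin 16 → ℂ) : MvPolynomial (Fin (4 + 1)) ℂ :=
  MvPolynomial.X 3 ^ 2
    - disc3 ![MvPolynomial.X 0, MvPolynomial.X 1, MvPolynomial.X 2] * MvPolynomial.X 4 ^ 2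
    - ∏ j, Pc ![MvPolynomial.X 0, MvPolynomial.X 1, MvPolynomial.X 2] (MvPolynomial.C (r j))

/-- the polynomial `disc z² + ∏ P(rⱼ)` -/
noncomputable def GR (r : Fin 16 → ℂ) : MvPolynomial (Fin 4) ℂ :=
  disc3 ![MvPolynomial.X 2, MvPolynomial.X 0, MvPolynomial.X 1] * MvPolynomial.X 3 ^ 2
    + ∏ j, Pc ![MvPolynomial.X 2, MvPolynomial.X 0, MvPolynomial.X 1] (MvPolynomial.C (r j))

theorem Psi_fR (rr : Fin 16 → ℂ) : Psi833 (fR rr) = Polynomial.X ^ 2 - Polynomial.C (GR rr) := by
  simp only [fR, GR, disc3, Pc, Matrix.cons_val_zero, Matrix.cons_val_one, Matrix.cons_val,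
    map_sub, map_mul, map_pow, map_add, map_prod, map_ofNat, Psi833_X0, Psi833_X1, Psi833_X2,
    Psi833_X3, Psi833_X4, Psi833_C, Polynomial.C_mul, Polynomial.C_pow, Polynomial.C_add,
    Polynomial.C_sub]
  ring

/-- `GR` is not a square -/
theorem not_sqR (rr : Fin 16 → ℂ) (a : MvPolynomial (Fin 4) ℂ) : a ^ 2 ≠ GR rr := by
  intro ha
  -- specialise `e = (0, 0, k)`, `z = T`
  obtain ⟨k, hk⟩ := Infinite.exists_notMem_finset
    (insert (0 : ℂ) (Finset.univ.image fun j : Fin 16 => -(rr j) ^ 3))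
  have hk0 : k ≠ 0 := fun h => hk (by rw [h]; exact Finset.mem_insert_self _ _)
  have hkj : ∀ j, rr j ^ 3 + k ≠ 0 := by
    intro j h
    apply hk
    apply Finset.mem_insert_of_mem
    rw [Finset.mem_image]
    exact ⟨j, Finset.mem_univ _, by linear_combination -h⟩
  set ψ : MvPolynomial (Fin 4) ℂ →ₐ[ℂ] Polynomial ℂ :=
    MvPolynomial.aeval ![(0 : Polynomial ℂ), Polynomial.C k, 0, Polynomial.X] with hψ
  set c : ℂ := ∏ j : Fin 16, (rr j ^ 3 + k) with hc
  have hG : ψ (GR rr) = - 27 * Polynomial.C k ^ 2 * Polynomial.X ^ 2 + Polynomial.C c := by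
    simp only [GR, disc3, Pc, Matrix.cons_val_zero, Matrix.cons_val_one, Matrix.cons_val,
      map_sub, map_mul, map_pow, map_add, map_prod, map_ofNat, hψ, MvPolynomial.aeval_X, hc,
      MvPolynomial.aeval_C, Polynomial.C_add, Polynomial.C_pow]
    simp
  have hc0 : c ≠ 0 := by
    rw [hc, Finset.prod_ne_zero_iff]
    intro j _
    exact hkj j
  have h1 : (ψ a) ^ 2 = - 27 * Polynomial.C k ^ 2 * Polynomial.X ^ 2 + Polynomial.C c := by
    rw [← map_pow, ha, hG]
  obtain ⟨s, hs⟩ := IsAlgClosed.exists_pow_nat_eq (c / (27 * k ^ 2)) (n := 2) (by norm_num)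
  have hs0 : s ≠ 0 := by
    intro h
    rw [h] at hs
    apply hc0
    have h2 : c / (27 * k ^ 2) = 0 := by rw [← hs]; norm_num
    rcases div_eq_zero_iff.1 h2 with h3 | h3
    · exact h3
    · exact absurd h3 (mul_ne_zero (by norm_num) (pow_ne_zero 2 hk0))
  have h2 : (ψ a).eval s ^ 2 = 0 := by
    have := congrArg (Polynomial.eval s) h1
    simp only [Polynomial.eval_pow, Polynomial.eval_add, Polynomial.eval_mul, Polynomial.eval_neg,
      Polynomial.eval_ofNat, Polynomial.eval_X, Polynomial.eval_C] at this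
    rw [this, hs]
    field_simp
    ring
  have h3 : (ψ a).eval s = 0 := by simpa using h2
  have h4 := congrArg (fun p => Polynomial.eval s (Polynomial.derivative p)) h1
  simp only [Polynomial.derivative_pow, Polynomial.derivative_add, Polynomial.derivative_mul,
    Polynomial.derivative_neg, Polynomial.derivative_ofNat, Polynomial.derivative_X,
    Polynomial.derivative_C, Polynomial.eval_pow, Polynomial.eval_add, Polynomial.eval_mul,
    Polynomial.eval_neg, Polynomial.eval_ofNat, Polynomial.eval_X, Polynomial.eval_C, h3] at h4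
  apply hs0
  simpa [hk0] using h4

theorem fR_irreducible (rr : Fin 16 → ℂ) : Irreducible (fR rr) := by
  rw [← MulEquiv.irreducible_iff Psi833, Psi_fR]
  have hm : (Polynomial.X ^ 2 - Polynomial.C (GR rr) : Polynomial (MvPolynomial (Fin 4) ℂ)).Monic :=
    Polynomial.monic_X_pow_sub_C _ (by norm_num)
  have hd : (Polynomial.X ^ 2 - Polynomial.C (GR rr) : Polynomial (MvPolynomial (Fin 4) ℂ)).natDegree = 2 :=
    Polynomial.natDegree_X_pow_sub_C
  rw [hm.irreducible_iff_roots_eq_zero_of_degree_le_three (by rw [hd]) (by rw [hd]; norm_num)]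
  rw [Multiset.eq_zero_iff_forall_notMem]
  intro a ha
  rw [Polynomial.mem_roots hm.ne_zero, Polynomial.IsRoot.def] at ha
  simp only [Polynomial.eval_sub, Polynomial.eval_pow, Polynomial.eval_X, Polynomial.eval_C] at ha
  exact not_sqR rr a (sub_eq_zero.mp ha)

/-- no relation `r0 + r1 y = 0` -/
theorem relR (rr : Fin 16 → ℂ) (r0 r1 : MvPolynomial (Fin 4) ℂ) (h : r0 ^ 2 = r1 ^ 2 * (GR rr)) : r1 = 0 := by
  by_contra hr1
  have hd : r1 ^ 2 ∣ r0 ^ 2 := ⟨(GR rr), h⟩
  rw [IsIntegrallyClosed.pow_dvd_pow_iff (by norm_num)] at hd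
  obtain ⟨s, rfl⟩ := hd
  rw [mul_pow] at h
  exact not_sqR rr s (mul_left_cancel₀ (pow_ne_zero 2 hr1) h)

theorem hom_of_relR (rr : Fin 16 → ℂ) (e : Fin 3 → L4) (y z : L4) (hrel : y ^ 2 - disc3 e * z ^ 2 = Fp rr e)
    (halg : Algebra.IsAlgebraic (IntermediateField.adjoin ℂ (Set.range e ∪ {z})) L4) :
    ∃ φ : HypRing 4 (fR rr) →ₐ[ℂ] L4, Function.Injective φ ∧
      IntermediateField.adjoin ℂ (Set.range φ) =
        IntermediateField.adjoin ℂ (Set.range e ∪ {y, z}) := by
  -- algebraic independence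
  have hrange : Set.range ![e 0, e 1, e 2, z] = Set.range e ∪ {z} := by
    ext x
    simp only [Set.mem_range, Set.mem_union, Set.mem_singleton_iff]
    constructor
    · rintro ⟨i, rfl⟩
      fin_cases i
      · left; exact ⟨0, rfl⟩
      · left; exact ⟨1, rfl⟩
      · left; exact ⟨2, rfl⟩
      · right; rfl
    · rintro (⟨i, rfl⟩ | rfl)
      · fin_cases i
        · exact ⟨0, rfl⟩
        · exact ⟨1, rfl⟩
        · exact ⟨2, rfl⟩
      · exact ⟨3, rfl⟩
  have hind : AlgebraicIndependent ℂ ![e 0, e 1, e 2, z] := by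
    apply algInd_of_J
    apply J_ne_zero
    rw [hrange]
    exact halg
  have hind' : AlgebraicIndependent ℂ ![e 1, e 2, e 0, z] := by
    have h1 := hind.comp ![(1 : Fin 4), 2, 0, 3] (by decide)
    have h2 : ![e 0, e 1, e 2, z] ∘ ![(1 : Fin 4), 2, 0, 3] = ![e 1, e 2, e 0, z] := by
      funext i; fin_cases i <;> rfl
    rwa [h2] at h1
  set ι : MvPolynomial (Fin 4) ℂ →ₐ[ℂ] L4 := MvPolynomial.aeval ![e 1, e 2, e 0, z] with hι
  have hιinj : Function.Injective ι := hind'
  have hιG : ι (GR rr) = y ^ 2 := by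
    have h1 : y ^ 2 = disc3 e * z ^ 2 + Fp rr e := by rw [← hrel]; ring
    rw [h1]
    simp only [GR, Fp, disc3, Pc, Matrix.cons_val_zero, Matrix.cons_val_one, Matrix.cons_val,
      map_sub, map_mul, map_pow, map_add, map_prod, map_ofNat, hι, MvPolynomial.aeval_X,
      MvPolynomial.aeval_C]
  set φ0 : MvPolynomial (Fin (4 + 1)) ℂ →ₐ[ℂ] L4 := MvPolynomial.aeval ![e 0, e 1, e 2, y, z] with hφ0
  -- comparison
  have hcomp : ∀ p, φ0 p = Polynomial.eval₂ (ι : MvPolynomial (Fin 4) ℂ →+* L4) y (Psi833 p) := by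
    intro p
    have h1 : (φ0 : MvPolynomial (Fin (4 + 1)) ℂ →+* L4) =
        (Polynomial.eval₂RingHom (ι : MvPolynomial (Fin 4) ℂ →+* L4) y).comp
          (Psi833 : MvPolynomial (Fin (4 + 1)) ℂ →+* Polynomial (MvPolynomial (Fin 4) ℂ)) := by
      apply MvPolynomial.ringHom_ext
      · intro c
        simp only [RingHom.comp_apply, RingHom.coe_coe, Polynomial.coe_eval₂RingHom]
        rw [Psi833_C, Polynomial.eval₂_C, hφ0, MvPolynomial.aeval_C]
        simp [hι]
      · intro i
        simp only [RingHom.comp_apply, RingHom.coe_coe, Polynomial.coe_eval₂RingHom]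
        rw [hφ0, MvPolynomial.aeval_X]
        fin_cases i
        · show e 0 = Polynomial.eval₂ (ι : MvPolynomial (Fin 4) ℂ →+* L4) y (Psi833 (MvPolynomial.X 0))
          rw [Psi833_X0, Polynomial.eval₂_C]; simp [hι]
        · show e 1 = Polynomial.eval₂ (ι : MvPolynomial (Fin 4) ℂ →+* L4) y (Psi833 (MvPolynomial.X 1))
          rw [Psi833_X1, Polynomial.eval₂_C]; simp [hι]
        · show e 2 = Polynomial.eval₂ (ι : MvPolynomial (Fin 4) ℂ →+* L4) y (Psi833 (MvPolynomial.X 2))
          rw [Psi833_X2, Polynomial.eval₂_C]; simp [hι]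
        · show y = Polynomial.eval₂ (ι : MvPolynomial (Fin 4) ℂ →+* L4) y (Psi833 (MvPolynomial.X 3))
          rw [Psi833_X3, Polynomial.eval₂_X]
        · show z = Polynomial.eval₂ (ι : MvPolynomial (Fin 4) ℂ →+* L4) y (Psi833 (MvPolynomial.X 4))
          rw [Psi833_X4, Polynomial.eval₂_C]; simp [hι]
    exact congrArg (fun f : MvPolynomial (Fin (4 + 1)) ℂ →+* L4 => f p) h1
  have hf0 : φ0 (fR rr) = 0 := by
    rw [hcomp, Psi_fR]
    simp [hιG]
  have hker : ∀ p, φ0 p = 0 → (fR rr) ∣ p := by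
    intro p hp
    rw [hcomp] at hp
    have hm : (Polynomial.X ^ 2 - Polynomial.C (GR rr) : Polynomial (MvPolynomial (Fin 4) ℂ)).Monic :=
      Polynomial.monic_X_pow_sub_C _ (by norm_num)
    have hd : (Polynomial.X ^ 2 - Polynomial.C (GR rr) : Polynomial (MvPolynomial (Fin 4) ℂ)).natDegree = 2 :=
      Polynomial.natDegree_X_pow_sub_C
    have h1 := Polynomial.modByMonic_add_div (Psi833 p) (Polynomial.X ^ 2 - Polynomial.C (GR rr))
    set r := Psi833 p %ₘ (Polynomial.X ^ 2 - Polynomial.C (GR rr)) with hr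
    have hdr : r.natDegree < 2 := by
      have := Polynomial.natDegree_modByMonic_lt (Psi833 p) hm (by
        intro h
        rw [h] at hd
        simp at hd)
      rw [hd] at this
      exact this
    have hr2 : r = Polynomial.C (r.coeff 1) * Polynomial.X + Polynomial.C (r.coeff 0) :=
      Polynomial.eq_X_add_C_of_natDegree_le_one (by omega)
    have h2 : Polynomial.eval₂ (ι : MvPolynomial (Fin 4) ℂ →+* L4) y r = 0 := by
      rw [← h1] at hp
      rw [Polynomial.eval₂_add, Polynomial.eval₂_mul] at hp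
      have h3 : Polynomial.eval₂ (ι : MvPolynomial (Fin 4) ℂ →+* L4) y
          (Polynomial.X ^ 2 - Polynomial.C (GR rr)) = 0 := by simp [hιG]
      rw [h3, zero_mul, add_zero] at hp
      exact hp
    rw [hr2] at h2
    simp only [Polynomial.eval₂_add, Polynomial.eval₂_mul, Polynomial.eval₂_C, Polynomial.eval₂_X,
      RingHom.coe_coe] at h2
    have h4 : (r.coeff 0) ^ 2 = (r.coeff 1) ^ 2 * (GR rr) := by
      apply hιinj
      rw [map_pow, map_mul, map_pow, hιG]
      have h5 : ι (r.coeff 0) = - (ι (r.coeff 1) * y) := by linear_combination h2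
      rw [h5]; ring
    have h6 : r.coeff 1 = 0 := relR rr _ _ h4
    have h7 : r.coeff 0 = 0 := by
      rw [h6] at h4
      have : (r.coeff 0) ^ 2 = 0 := by rw [h4]; ring
      exact pow_eq_zero_iff (by norm_num) |>.mp this
    have h8 : r = 0 := by rw [hr2, h6, h7]; simp
    rw [h8, zero_add] at h1
    have h9 : Psi833 (fR rr) ∣ Psi833 p := by
      rw [Psi_fR]; exact ⟨_, h1.symm⟩
    exact (map_dvd_iff Psi833).mp h9
  have hI : ∀ a ∈ Ideal.span {(fR rr)}, φ0 a = 0 := by
    intro a ha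
    rw [Ideal.mem_span_singleton] at ha
    obtain ⟨b, rfl⟩ := ha
    rw [map_mul, hf0, zero_mul]
  refine ⟨Ideal.Quotient.liftₐ (Ideal.span {(fR rr)}) φ0 hI, ?_, ?_⟩
  · rw [injective_iff_map_eq_zero]
    intro q hq
    obtain ⟨p, rfl⟩ := Ideal.Quotient.mk_surjective q
    rw [Ideal.Quotient.eq_zero_iff_mem, Ideal.mem_span_singleton]
    exact hker p hq
  · have hrφ : Set.range (Ideal.Quotient.liftₐ (Ideal.span {(fR rr)}) φ0 hI) = Set.range φ0 := by
      ext x
      constructor
      · rintro ⟨q, rfl⟩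
        obtain ⟨p, rfl⟩ := Ideal.Quotient.mk_surjective q
        exact ⟨p, rfl⟩
      · rintro ⟨p, rfl⟩
        exact ⟨Ideal.Quotient.mk _ p, rfl⟩
    rw [hrφ]
    apply le_antisymm
    · rw [IntermediateField.adjoin_le_iff]
      rintro x ⟨p, rfl⟩
      have hv : ∀ i, ![e 0, e 1, e 2, y, z] i ∈ IntermediateField.adjoin ℂ (Set.range e ∪ {y, z}) := by
        intro i
        apply IntermediateField.subset_adjoin
        fin_cases i
        · left; exact ⟨0, rfl⟩
        · left; exact ⟨1, rfl⟩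
        · left; exact ⟨2, rfl⟩
        · right; left; rfl
        · right; right; rfl
      induction p using MvPolynomial.induction_on with
      | C c =>
        rw [hφ0, MvPolynomial.aeval_C]
        exact IntermediateField.algebraMap_mem _ c
      | add p q hp hq => rw [map_add]; exact add_mem hp hq
      | mul_X p i hp =>
        rw [map_mul]
        apply mul_mem hp
        rw [hφ0, MvPolynomial.aeval_X]
        exact hv i
    · apply IntermediateField.adjoin.mono
      rintro x (⟨i, rfl⟩ | h)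
      · fin_cases i
        · exact ⟨MvPolynomial.X 0, by rw [hφ0, MvPolynomial.aeval_X]; rfl⟩
        · exact ⟨MvPolynomial.X 1, by rw [hφ0, MvPolynomial.aeval_X]; rfl⟩
        · exact ⟨MvPolynomial.X 2, by rw [hφ0, MvPolynomial.aeval_X]; rfl⟩
      · rcases h with rfl | h
        · exact ⟨MvPolynomial.X 3, by rw [hφ0, MvPolynomial.aeval_X]; rfl⟩
        · rw [Set.mem_singleton_iff] at h
          subst h
          exact ⟨MvPolynomial.X 4, by rw [hφ0, MvPolynomial.aeval_X]; rfl⟩

end Pool.Agent.Y153.CDR
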