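import Pool.Agent.Helper346.CD.K2

/-!
The parametrization of degree 2 (helper153; after `Pool.Agent.Helper346.CD.K2`).
-/

set_option autoImplicit false

namespace Pool.Agent.Y153.CDR

open MvPolynomial Pool.Agent.Helper346.CD

theorem param2_aux (rr : Fin 16 → ℂ) : ∃ (e : Fin 3 → L4) (y z : L4), y ^ 2 - disc3 e * z ^ 2 = Fp rr e ∧
    ∃ (κ : ℂ) (u q t W c s : L4), u = Uv 0 ∧ q = Uv 1 ∧ t = Uv 2 ∧ W = Uv 3 ∧ q ≠ 0 ∧
      q ^ 2 - c * q + t ^ 3 = 0 ∧ u = - e 0 / 3 ∧ t = u ^ 2 - e 1 / 3 ∧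
      c = - e 2 - u ^ 3 + 3 * t * u ∧ s = algebraMap ℂ L4 κ * (q - t ^ 3 / q) ∧ W = y + s * z ∧
      s ^ 2 = disc3 e ∧
      W ^ 4 - (2 * Fp rr e + 4 * disc3 e * z ^ 2) * W ^ 2 + (Fp rr e) ^ 2 = 0 := by
  obtain ⟨κ, hκ⟩ := IsAlgClosed.exists_pow_nat_eq (-27 : ℂ) (n := 2) (by norm_num)
  obtain ⟨u, hu⟩ : ∃ u : L4, u = Uv 0 := ⟨_, rfl⟩
  obtain ⟨q, hq⟩ : ∃ q : L4, q = Uv 1 := ⟨_, rfl⟩
  obtain ⟨t, ht⟩ : ∃ t : L4, t = Uv 2 := ⟨_, rfl⟩
  obtain ⟨W, hW⟩ : ∃ W : L4, W = Uv 3 := ⟨_, rfl⟩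
  have hinj : Function.Injective (algebraMap R4 L4) := IsFractionRing.injective R4 L4
  have hX : ∀ i, (Uv i : L4) ≠ 0 := by
    intro i h
    unfold Uv at h
    rw [map_eq_zero_iff _ hinj] at h
    exact MvPolynomial.X_ne_zero i h
  have hq0 : q ≠ 0 := by rw [hq]; exact hX 1
  have hW0 : W ≠ 0 := by rw [hW]; exact hX 3
  obtain ⟨k, hk⟩ : ∃ k : L4, k = algebraMap ℂ L4 κ := ⟨_, rfl⟩
  have hk2 : k ^ 2 = -27 := by
    rw [hk, ← map_pow, hκ, map_neg, map_ofNat]
  have hk0 : k ≠ 0 := by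
    rintro rfl
    norm_num at hk2
  have hs1 : q - t ^ 3 / q ≠ 0 := by
    intro h
    have h1 : q ^ 2 - t ^ 3 = 0 := by
      have : q ^ 2 - t ^ 3 = q * (q - t ^ 3 / q) := by
        field_simp
      rw [this, h, mul_zero]
    rw [hq, ht] at h1
    unfold Uv at h1
    rw [← map_pow, ← map_pow, ← map_sub, map_eq_zero_iff _ hinj] at h1
    have h2 := congrArg (MvPolynomial.eval (fun i : Fin 4 => if i = 1 then (1 : ℂ) else 0)) h1
    simp at h2
  obtain ⟨s, hs⟩ : ∃ s : L4, s = k * (q - t ^ 3 / q) := ⟨_, rfl⟩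
  have hs0 : s ≠ 0 := by
    rw [hs]
    exact mul_ne_zero hk0 hs1
  obtain ⟨c, hc⟩ : ∃ c : L4, c = q + t ^ 3 / q := ⟨_, rfl⟩
  obtain ⟨e, he⟩ : ∃ e : Fin 3 → L4, e = ![-(3 * u), 3 * u ^ 2 - 3 * t, - u ^ 3 + 3 * t * u - c] :=
    ⟨_, rfl⟩
  have he0 : e 0 = -(3 * u) := by rw [he]; rfl
  have he1 : e 1 = 3 * u ^ 2 - 3 * t := by rw [he]; rfl
  have he2 : e 2 = - u ^ 3 + 3 * t * u - c := by rw [he]; rfl
  have hdisc : s ^ 2 = disc3 e := by
    unfold disc3
    rw [he0, he1, he2, hs, mul_pow, hk2, hc]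
    field_simp
    ring
  have hF : Fp rr e ≠ 0 := by
    unfold Fp
    rw [Finset.prod_ne_zero_iff]
    intro j _ h
    unfold Pc at h
    rw [he0, he1, he2, hc] at h
    obtain ⟨r, hr⟩ : ∃ r : ℂ, r = rr j := ⟨_, rfl⟩
    rw [← hr] at h
    have h1 : q * ((algebraMap ℂ L4 r - u) ^ 3 - 3 * t * (algebraMap ℂ L4 r - u)) - q ^ 2 - t ^ 3
        = 0 := by
      have : q * ((algebraMap ℂ L4 r - u) ^ 3 - 3 * t * (algebraMap ℂ L4 r - u)) - q ^ 2 - t ^ 3 =
        q * ((algebraMap ℂ L4 r) ^ 3 + -(3 * u) * (algebraMap ℂ L4 r) ^ 2 +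
          (3 * u ^ 2 - 3 * t) * (algebraMap ℂ L4 r) + (-u ^ 3 + 3 * t * u - (q + t ^ 3 / q))) := by
        field_simp
        ring
      rw [this, h, mul_zero]
    have hr2 : algebraMap ℂ L4 r = algebraMap R4 L4 (MvPolynomial.C r) := by
      rw [IsScalarTower.algebraMap_apply ℂ R4 L4]
      rfl
    rw [hq, ht, hu, hr2] at h1
    have h2 : algebraMap R4 L4 (MvPolynomial.X 1 * ((MvPolynomial.C r - MvPolynomial.X 0) ^ 3 -
        3 * MvPolynomial.X 2 * (MvPolynomial.C r - MvPolynomial.X 0)) - MvPolynomial.X 1 ^ 2 -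
        MvPolynomial.X 2 ^ 3) = 0 := by
      rw [← h1]
      unfold Uv
      simp only [map_sub, map_mul, map_pow, map_ofNat]
    rw [map_eq_zero_iff _ hinj] at h2
    have h3 := congrArg (MvPolynomial.eval
      (fun i : Fin 4 => if i = 0 then r else if i = 1 then (1 : ℂ) else 0)) h2
    simp at h3
  obtain ⟨F, hFd⟩ : ∃ F : L4, F = Fp rr e := ⟨_, rfl⟩
  refine ⟨e, (W + F / W) / 2, (W - F / W) / (2 * s), ?_, κ, u, q, t, W, c, s, hu, hq, ht, hW, hq0,
    ?_, ?_, ?_, ?_, ?_, ?_, hdisc, ?_⟩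
  · rw [← hdisc, ← hFd]
    field_simp
    ring
  · rw [hc]
    field_simp
    ring
  · rw [he0]
    ring
  · rw [he1]
    ring
  · rw [he2]
    ring
  · rw [hs, hk]
  · field_simp
    ring
  · rw [← hdisc, ← hFd]
    field_simp
    ring

theorem param2 (rr : Fin 16 → ℂ) (hinj : Function.Injective rr) : ∃ (e : Fin 3 → L4) (y z : L4), y ^ 2 - disc3 e * z ^ 2 = Fp rr e ∧
    Algebra.IsAlgebraic (IntermediateField.adjoin ℂ (Set.range e ∪ {z})) L4 ∧
    Module.finrank (IntermediateField.adjoin ℂ (Set.range e ∪ {y, z})) L4 = 2 := by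
  obtain ⟨e, y, z, hrel, κ, u, q, t, W, c, s, hu, hq, ht, hW, hq0, hqe, hue, hte, hce, hse, hWe,
    hs2, hW4⟩ := param2_aux rr
  refine ⟨e, y, z, hrel, ?_, ?_⟩
  · obtain ⟨M0, hM0⟩ : ∃ M0 : IntermediateField ℂ L4,
        M0 = IntermediateField.adjoin ℂ (Set.range e ∪ {z}) := ⟨_, rfl⟩
    rw [← hM0]
    have hei : ∀ i, e i ∈ M0 := by
      intro i
      rw [hM0]
      exact IntermediateField.subset_adjoin _ _ (Or.inl ⟨i, rfl⟩)
    have hz : z ∈ M0 := by
      rw [hM0]
      exact IntermediateField.subset_adjoin _ _ (Or.inr rfl)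
    have h3 : (3 : L4) ∈ M0 := by
      have := M0.natCast_mem 3
      simpa using this
    have h4 : (4 : L4) ∈ M0 := by
      have := M0.natCast_mem 4
      simpa using this
    have h2 : (2 : L4) ∈ M0 := by
      have := M0.natCast_mem 2
      simpa using this
    have h18 : (18 : L4) ∈ M0 := by
      have := M0.natCast_mem 18
      simpa using this
    have h27 : (27 : L4) ∈ M0 := by
      have := M0.natCast_mem 27
      simpa using this
    have huM : u ∈ M0 := by
      rw [hue]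
      exact M0.div_mem (M0.neg_mem (hei 0)) h3
    have htM : t ∈ M0 := by
      rw [hte]
      exact M0.sub_mem (M0.pow_mem huM 2) (M0.div_mem (hei 1) h3)
    have hcM : c ∈ M0 := by
      rw [hce]
      exact M0.add_mem (M0.sub_mem (M0.neg_mem (hei 2)) (M0.pow_mem huM 3))
        (M0.mul_mem (M0.mul_mem h3 htM) huM)
    have hdM : disc3 e ∈ M0 := by
      unfold disc3
      refine M0.sub_mem (M0.add_mem (M0.sub_mem (M0.sub_mem ?_ ?_) ?_) ?_) ?_
      · exact M0.mul_mem (M0.pow_mem (hei 0) 2) (M0.pow_mem (hei 1) 2)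
      · exact M0.mul_mem h4 (M0.pow_mem (hei 1) 3)
      · exact M0.mul_mem (M0.mul_mem h4 (M0.pow_mem (hei 0) 3)) (hei 2)
      · exact M0.mul_mem (M0.mul_mem (M0.mul_mem h18 (hei 0)) (hei 1)) (hei 2)
      · exact M0.mul_mem h27 (M0.pow_mem (hei 2) 2)
    have hFM : Fp rr e ∈ M0 := by
      unfold Fp
      refine M0.prod_mem fun j _ => ?_
      unfold Pc
      have hr : algebraMap ℂ L4 (rr j) ∈ M0 := M0.algebraMap_mem _
      exact M0.add_mem (M0.add_mem (M0.add_mem (M0.pow_mem hr 3)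
        (M0.mul_mem (hei 0) (M0.pow_mem hr 2))) (M0.mul_mem (hei 1) hr)) (hei 2)
    have hqA : q ∈ algebraicClosure M0 L4 := by
      rw [mem_algebraicClosure_iff']
      refine ⟨Polynomial.X ^ 2 - Polynomial.C (⟨c, hcM⟩ : M0) * Polynomial.X +
        Polynomial.C (⟨t, htM⟩ ^ 3 : M0), by monicity!, ?_⟩
      simp only [Polynomial.eval₂_add, Polynomial.eval₂_sub, Polynomial.eval₂_pow,
        Polynomial.eval₂_X, Polynomial.eval₂_mul, Polynomial.eval₂_C, map_pow]
      exact hqe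
    have hWA : W ∈ algebraicClosure M0 L4 := by
      rw [mem_algebraicClosure_iff']
      refine ⟨Polynomial.X ^ 4 - Polynomial.C (⟨2 * Fp rr e + 4 * disc3 e * z ^ 2,
        M0.add_mem (M0.mul_mem h2 hFM) (M0.mul_mem (M0.mul_mem h4 hdM) (M0.pow_mem hz 2))⟩ : M0) *
        Polynomial.X ^ 2 +
        Polynomial.C (⟨Fp rr e, hFM⟩ ^ 2 : M0), by monicity!, ?_⟩
      simp only [Polynomial.eval₂_add, Polynomial.eval₂_sub, Polynomial.eval₂_pow,
        Polynomial.eval₂_X, Polynomial.eval₂_mul, Polynomial.eval₂_C, map_pow]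
      exact hW4
    have htop : (algebraicClosure M0 L4).restrictScalars ℂ = ⊤ := by
      apply gen_Uv_832
      intro i
      rw [IntermediateField.mem_restrictScalars]
      have hM : ∀ x ∈ M0, x ∈ algebraicClosure M0 L4 := fun x hx =>
        (algebraicClosure M0 L4).algebraMap_mem (⟨x, hx⟩ : M0)
      fin_cases i
      · rw [hu] at huM; exact hM _ huM
      · rw [hq] at hqA; exact hqA
      · rw [ht] at htM; exact hM _ htM
      · rw [hW] at hWA; exact hWA
    refine ⟨fun x => ?_⟩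
    rw [← mem_algebraicClosure_iff, ← IntermediateField.mem_restrictScalars ℂ, htop]
    trivial
  · obtain ⟨M, hM⟩ : ∃ M : IntermediateField ℂ L4,
        M = IntermediateField.adjoin ℂ (Set.range e ∪ {y, z}) := ⟨_, rfl⟩
    rw [← hM]
    have hei : ∀ i, e i ∈ M := by
      intro i
      rw [hM]
      exact IntermediateField.subset_adjoin _ _ (Or.inl ⟨i, rfl⟩)
    have hy : y ∈ M := by
      rw [hM]
      exact IntermediateField.subset_adjoin _ _ (Or.inr (Or.inl rfl))
    have hz : z ∈ M := by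
      rw [hM]
      exact IntermediateField.subset_adjoin _ _ (Or.inr (Or.inr rfl))
    have h3 : (3 : L4) ∈ M := by
      have := M.natCast_mem 3
      simpa using this
    have huM : u ∈ M := by
      rw [hue]
      exact M.div_mem (M.neg_mem (hei 0)) h3
    have htM : t ∈ M := by
      rw [hte]
      exact M.sub_mem (M.pow_mem huM 2) (M.div_mem (hei 1) h3)
    have hcM : c ∈ M := by
      rw [hce]
      exact M.add_mem (M.sub_mem (M.neg_mem (hei 2)) (M.pow_mem huM 3))
        (M.mul_mem (M.mul_mem h3 htM) huM)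
    obtain ⟨P, hP⟩ : ∃ P : Polynomial M, P = Polynomial.X ^ 2 -
      Polynomial.C (⟨c, hcM⟩ : M) * Polynomial.X + Polynomial.C (⟨t, htM⟩ ^ 3 : M) := ⟨_, rfl⟩
    have hPm : P.Monic := by
      rw [hP]
      monicity!
    have hPd : P.natDegree = 2 := by
      rw [hP]
      compute_degree!
    have hPq : Polynomial.aeval q P = 0 := by
      rw [hP]
      simp only [Polynomial.aeval_def, Polynomial.eval₂_add, Polynomial.eval₂_sub,
        Polynomial.eval₂_pow, Polynomial.eval₂_X, Polynomial.eval₂_mul, Polynomial.eval₂_C,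
        map_pow]
      exact hqe
    have hint : IsIntegral M q := ⟨P, hPm, hPq⟩
    have hgen : (IntermediateField.adjoin M {q}).restrictScalars ℂ = ⊤ := by
      apply gen_Uv_832
      intro i
      rw [IntermediateField.mem_restrictScalars]
      have hMM : ∀ x ∈ M, x ∈ IntermediateField.adjoin M {q} := fun x hx =>
        (IntermediateField.adjoin M {q}).algebraMap_mem (⟨x, hx⟩ : M)
      have hqm : q ∈ IntermediateField.adjoin M {q} :=
        IntermediateField.mem_adjoin_simple_self M q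
      have hsm : s ∈ IntermediateField.adjoin M {q} := by
        rw [hse]
        refine mul_mem (hMM _ (M.algebraMap_mem κ)) (sub_mem hqm (div_mem ?_ hqm))
        exact hMM _ (M.pow_mem htM 3)
      have hWm : W ∈ IntermediateField.adjoin M {q} := by
        rw [hWe]
        exact add_mem (hMM _ hy) (mul_mem hsm (hMM _ hz))
      fin_cases i
      · rw [hu] at huM; exact hMM _ huM
      · rw [hq] at hqm ⊢; exact hqm
      · rw [ht] at htM; exact hMM _ htM
      · rw [hW] at hWm; exact hWm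
    have htop : IntermediateField.adjoin M {q} = ⊤ := by
      rw [eq_top_iff]
      intro x _
      rw [← IntermediateField.mem_restrictScalars ℂ, hgen]
      trivial
    have hfr : Module.finrank M L4 = (minpoly M q).natDegree := by
      rw [← IntermediateField.adjoin.finrank hint, htop, IntermediateField.finrank_top']
    have hle : (minpoly M q).natDegree ≤ 2 := by
      rw [← hPd]
      exact Polynomial.natDegree_le_of_dvd (minpoly.dvd M q hPq) hPm.ne_zero
    have hpos : 0 < (minpoly M q).natDegree := minpoly.natDegree_pos hint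
    have hne1 : Module.finrank M L4 ≠ 1 := by
      intro h1
      rw [IntermediateField.finrank_eq_one_iff_eq_top] at h1
      refine no_pres (r := rr) (e := e) (y := y) (z := z) ⟨hinj, hrel, ?_⟩
      rw [← hM, h1]
    omega

end Pool.Agent.Y153.CDR
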