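import Pool.Agent.Y153.CDR.G1
import Pool.Agent.Helper346.CD.NoPres

/-!
Irrationality (helper153; after `Pool.Agent.Helper346.CD.K4`).
-/

set_option autoImplicit false

namespace Pool.Agent.Y153.CDR

open MvPolynomial Pool.Agent.Helper346.CD

theorem fR_relation (rr : Fin 16 → ℂ) {A : Type} [CommRing A] [Algebra ℂ A] (x : Fin 5 → A) :
    aeval x (fR rr) = x 3 ^ 2 - disc3 ![x 0, x 1, x 2] * x 4 ^ 2 -
      ∏ j, Pc ![x 0, x 1, x 2] (algebraMap ℂ A (rr j)) := by
  unfold fR disc3 Pc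
  simp only [map_sub, map_mul, map_pow, aeval_X, map_prod, map_add, aeval_C, Matrix.cons_val_zero,
    Matrix.cons_val_one, Matrix.cons_val, map_ofNat]

theorem not_isRatR (rr : Fin 16 → ℂ) (hinj : Function.Injective rr) : ¬ IsRat (HypRing 4 (fR rr)) 4 := by
  rintro ⟨ψ⟩
  have hp : (Ideal.span {(fR rr)}).IsPrime := by
    rw [Ideal.span_singleton_prime (fR_irreducible rr).ne_zero]
    exact (fR_irreducible rr).prime
  haveI : IsDomain (HypRing 4 (fR rr)) := Ideal.Quotient.isDomain _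
  let q : MvPolynomial (Fin (4 + 1)) ℂ →ₐ[ℂ] HypRing 4 (fR rr) := Ideal.Quotient.mkₐ ℂ _
  let ι : HypRing 4 (fR rr) →ₐ[ℂ] FractionRing (HypRing 4 (fR rr)) := IsScalarTower.toAlgHom ℂ _ _
  let Ψ : MvPolynomial (Fin (4 + 1)) ℂ →ₐ[ℂ] L4 := (ψ : FractionRing (HypRing 4 (fR rr)) →ₐ[ℂ] L4).comp (ι.comp q)
  let x : Fin 5 → L4 := fun i => Ψ (X i)
  have hΨ : ∀ p, Ψ p = aeval x p := by
    intro p
    have : Ψ = aeval x := by
      apply MvPolynomial.algHom_ext
      intro i
      rw [aeval_X]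
    rw [this]
  have hf : aeval x (fR rr) = 0 := by
    rw [← hΨ]
    have : q (fR rr) = 0 := by
      change Ideal.Quotient.mk _ (fR rr) = 0
      rw [Ideal.Quotient.eq_zero_iff_mem]
      exact Ideal.subset_span rfl
    simp only [Ψ, AlgHom.comp_apply, this, map_zero]
  rw [fR_relation] at hf
  refine no_pres (r := rr) (e := ![x 0, x 1, x 2]) (y := x 3) (z := x 4) ⟨hinj, ?_, ?_⟩
  · unfold Fp
    linear_combination hf
  · rw [eq_top_iff]
    intro w _
    have hmem : ∀ p : MvPolynomial (Fin (4 + 1)) ℂ, Ψ p ∈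
        IntermediateField.adjoin ℂ (Set.range ![x 0, x 1, x 2] ∪ {x 3, x 4}) := by
      intro p
      rw [hΨ]
      induction p using MvPolynomial.induction_on with
      | C a => rw [aeval_C]; exact IntermediateField.algebraMap_mem _ a
      | add p q hp hq => rw [map_add]; exact add_mem hp hq
      | mul_X p i hp =>
        rw [map_mul, aeval_X]
        refine mul_mem hp (IntermediateField.subset_adjoin _ _ ?_)
        fin_cases i
        · exact Or.inl ⟨0, rfl⟩
        · exact Or.inl ⟨1, rfl⟩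
        · exact Or.inl ⟨2, rfl⟩
        · exact Or.inr (Or.inl rfl)
        · exact Or.inr (Or.inr rfl)
    obtain ⟨u, rfl⟩ := ψ.surjective w
    obtain ⟨a, b, hb, rfl⟩ := IsFractionRing.div_surjective (A := HypRing 4 (fR rr)) u
    obtain ⟨a', rfl⟩ := Ideal.Quotient.mk_surjective a
    obtain ⟨b', rfl⟩ := Ideal.Quotient.mk_surjective b
    rw [map_div₀]
    exact div_mem (hmem a') (hmem b')

end Pool.Agent.Y153.CDR
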