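import Pool.Agent.Helper346.CD.FinDefs
import Pool.Agent.Helper346.CD.K3

/-!
Multiplying the degree of a parametrization (helper153).
-/

set_option autoImplicit false

namespace Pool.Agent.Y153.CDR

open Pool.Agent.Helper346.CD

/-- if `L4` is algebraic over the field generated by the `v i`, there is an endomorphism of `L4`
with `Uv i ↦ v i` -/
theorem exists_endo (v : Fin 4 → L4)
    (h : Algebra.IsAlgebraic (IntermediateField.adjoin ℂ (Set.range v)) L4) :
    ∃ σ : L4 →ₐ[ℂ] L4, ∀ i, σ (Uv i) = v i := by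
  have h1 : AlgebraicIndependent ℂ v := algInd_of_J v (J_ne_zero v h)
  have h2 : Function.Injective (MvPolynomial.aeval v : R4 →ₐ[ℂ] L4) := h1
  refine ⟨IsFractionRing.liftAlgHom (K := L4) (g := (MvPolynomial.aeval v : R4 →ₐ[ℂ] L4)) h2,
    fun i => ?_⟩
  rw [IsFractionRing.liftAlgHom_apply, Uv]
  have h3 := IsFractionRing.lift_algebraMap (K := L4) (g := ((MvPolynomial.aeval v :
    R4 →ₐ[ℂ] L4) : R4 →+* L4)) h2 (MvPolynomial.X i)
  exact h3.trans (by simp)

/-- endomorphisms are determined by the images of the variables -/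
theorem endo_ext {σ τ : L4 →ₐ[ℂ] L4} (h : ∀ i, σ (Uv i) = τ (Uv i)) : σ = τ := by
  have h1 : AlgHom.equalizer σ τ = ⊤ ∨ True := Or.inr trivial
  have h2 : ∀ p : R4, σ (algebraMap R4 L4 p) = τ (algebraMap R4 L4 p) := by
    intro p
    have h3 : σ.comp (IsScalarTower.toAlgHom ℂ R4 L4) = τ.comp (IsScalarTower.toAlgHom ℂ R4 L4) :=
      MvPolynomial.algHom_ext fun i => h i
    exact congrArg (fun f : R4 →ₐ[ℂ] L4 => f p) h3
  apply AlgHom.ext
  intro x
  obtain ⟨a, b, hb, rfl⟩ := IsFractionRing.div_surjective (A := R4) x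
  rw [map_div₀, map_div₀, h2, h2]

/-- the endomorphism `Uv 0 ↦ Uv 0 ^ k` has degree `k` -/
theorem exists_pow_endo (k : ℕ) (hk : 0 < k) : ∃ σ : L4 →ₐ[ℂ] L4,
    Module.finrank ((⊤ : IntermediateField ℂ L4).map σ) L4 = k := by
  have hU0 : Uv 0 ≠ 0 := by
    intro h
    rw [Uv, map_eq_zero_iff _ (IsFractionRing.injective R4 L4)] at h
    exact MvPolynomial.X_ne_zero _ h
  obtain ⟨v, hv⟩ : ∃ v : Fin 4 → L4, v = ![Uv 0 ^ k, Uv 1, Uv 2, Uv 3] := ⟨_, rfl⟩
  have hv0 : v 0 = Uv 0 ^ k := by rw [hv]; rfl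
  have hv1 : v 1 = Uv 1 := by rw [hv]; rfl
  have hv2 : v 2 = Uv 2 := by rw [hv]; rfl
  have hv3 : v 3 = Uv 3 := by rw [hv]; rfl
  have halg : Algebra.IsAlgebraic (IntermediateField.adjoin ℂ (Set.range v)) L4 := by
    obtain ⟨M0, hM0⟩ : ∃ M0, M0 = IntermediateField.adjoin ℂ (Set.range v) := ⟨_, rfl⟩
    rw [← hM0]
    have mv : ∀ i, v i ∈ M0 := fun i => by
      rw [hM0]
      exact IntermediateField.subset_adjoin _ _ (Set.mem_range_self i)
    have hmem : ∀ x ∈ M0, x ∈ (algebraicClosure M0 L4).restrictScalars ℂ := by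
      intro x hx
      exact (algebraicClosure M0 L4).algebraMap_mem ⟨x, hx⟩
    have h0 : Uv 0 ∈ (algebraicClosure M0 L4).restrictScalars ℂ := by
      change Uv 0 ∈ algebraicClosure M0 L4
      rw [mem_algebraicClosure_iff]
      refine ⟨Polynomial.X ^ k - Polynomial.C ⟨v 0, mv 0⟩,
        (Polynomial.monic_X_pow_sub_C _ hk.ne').ne_zero, ?_⟩
      simp only [map_sub, map_pow, Polynomial.aeval_X, Polynomial.aeval_C]
      rw [sub_eq_zero]
      exact hv0.symm
    have htop := adj_top ((algebraicClosure M0 L4).restrictScalars ℂ) (fun i => by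
      fin_cases i
      · exact h0
      · have := hmem _ (mv 1); rw [hv1] at this; exact this
      · have := hmem _ (mv 2); rw [hv2] at this; exact this
      · have := hmem _ (mv 3); rw [hv3] at this; exact this)
    refine ⟨fun x => ?_⟩
    have : x ∈ (algebraicClosure M0 L4).restrictScalars ℂ := by rw [htop]; trivial
    exact mem_algebraicClosure_iff.1 this
  obtain ⟨σ, hσ⟩ := exists_endo v halg
  refine ⟨σ, ?_⟩
  obtain ⟨K, hK⟩ : ∃ K, K = (⊤ : IntermediateField ℂ L4).map σ := ⟨_, rfl⟩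
  rw [← hK]
  have hσK : ∀ x, σ x ∈ K := fun x => by
    rw [hK]
    exact ⟨x, IntermediateField.mem_top, rfl⟩
  have h0K : Uv 0 ^ k ∈ K := by
    have := hσK (Uv 0)
    rwa [hσ, hv0] at this
  have h1K : Uv 1 ∈ K := by
    have := hσK (Uv 1)
    rwa [hσ, hv1] at this
  have h2K : Uv 2 ∈ K := by
    have := hσK (Uv 2)
    rwa [hσ, hv2] at this
  have h3K : Uv 3 ∈ K := by
    have := hσK (Uv 3)
    rwa [hσ, hv3] at this
  obtain ⟨P, hP⟩ : ∃ P : Polynomial K, P = Polynomial.X ^ k - Polynomial.C ⟨Uv 0 ^ k, h0K⟩ :=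
    ⟨_, rfl⟩
  have hPm : P.Monic := by
    rw [hP]
    exact Polynomial.monic_X_pow_sub_C _ hk.ne'
  have hPd : P.natDegree = k := by
    rw [hP]
    exact Polynomial.natDegree_X_pow_sub_C
  have hP0 : Polynomial.aeval (Uv 0) P = 0 := by
    rw [hP]
    simp only [map_sub, map_pow, Polynomial.aeval_X, Polynomial.aeval_C]
    exact sub_self _
  have hint : IsIntegral K (Uv 0) := ⟨P, hPm, hP0⟩
  have htop : IntermediateField.adjoin K {Uv 0} = ⊤ := by
    have hmem : ∀ x ∈ K, x ∈ (IntermediateField.adjoin K {Uv 0}).restrictScalars ℂ := by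
      intro x hx
      exact (IntermediateField.adjoin K {Uv 0}).algebraMap_mem ⟨x, hx⟩
    have h2 := adj_top ((IntermediateField.adjoin K {Uv 0}).restrictScalars ℂ) (fun i => by
      fin_cases i
      · exact IntermediateField.mem_adjoin_simple_self K (Uv 0)
      · exact hmem _ h1K
      · exact hmem _ h2K
      · exact hmem _ h3K)
    rw [eq_top_iff]
    intro x _
    have : x ∈ (IntermediateField.adjoin K {Uv 0}).restrictScalars ℂ := by rw [h2]; trivial
    exact this
  have hfr : Module.finrank K L4 = (minpoly K (Uv 0)).natDegree := by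
    rw [← IntermediateField.adjoin.finrank hint, htop, IntermediateField.finrank_top']
  have hle : (minpoly K (Uv 0)).natDegree ≤ k := by
    rw [← hPd]
    exact Polynomial.natDegree_le_of_dvd (minpoly.dvd K (Uv 0) hP0) hPm.ne_zero
  -- the conjugates
  have hroot : ∀ ζ : ℂ, ζ ^ k = 1 → Polynomial.aeval (algebraMap ℂ L4 ζ * Uv 0)
      (minpoly K (Uv 0)) = 0 := by
    intro ζ hζ
    have hζ0 : ζ ≠ 0 := by
      rintro rfl
      rw [zero_pow hk.ne'] at hζ
      exact zero_ne_one hζ
    obtain ⟨w, hw⟩ : ∃ w : Fin 4 → L4, w = ![algebraMap ℂ L4 ζ * Uv 0, Uv 1, Uv 2, Uv 3] :=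
      ⟨_, rfl⟩
    have hw0 : w 0 = algebraMap ℂ L4 ζ * Uv 0 := by rw [hw]; rfl
    have hw1 : w 1 = Uv 1 := by rw [hw]; rfl
    have hw2 : w 2 = Uv 2 := by rw [hw]; rfl
    have hw3 : w 3 = Uv 3 := by rw [hw]; rfl
    have hadj : IntermediateField.adjoin ℂ (Set.range w) = ⊤ := by
      have mw : ∀ i, w i ∈ IntermediateField.adjoin ℂ (Set.range w) := fun i =>
        IntermediateField.subset_adjoin _ _ (Set.mem_range_self i)
      refine adj_top _ fun i => ?_
      fin_cases i
      · have h5 := (IntermediateField.adjoin ℂ (Set.range w)).mul_mem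
          ((IntermediateField.adjoin ℂ (Set.range w)).algebraMap_mem ζ⁻¹) (mw 0)
        rw [hw0, ← mul_assoc, ← map_mul, inv_mul_cancel₀ hζ0, map_one, one_mul] at h5
        exact h5
      · have := mw 1; rw [hw1] at this; exact this
      · have := mw 2; rw [hw2] at this; exact this
      · have := mw 3; rw [hw3] at this; exact this
    have halg' : Algebra.IsAlgebraic (IntermediateField.adjoin ℂ (Set.range w)) L4 := by
      refine ⟨fun x => ?_⟩
      have hx : x ∈ IntermediateField.adjoin ℂ (Set.range w) := by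
        rw [hadj]
        exact IntermediateField.mem_top
      exact isAlgebraic_algebraMap (R := IntermediateField.adjoin ℂ (Set.range w)) (A := L4)
        ⟨x, hx⟩
    obtain ⟨τ, hτ⟩ := exists_endo w halg'
    have hτσ : τ.comp σ = σ := by
      apply endo_ext
      intro i
      rw [AlgHom.comp_apply, hσ]
      fin_cases i
      · change τ (v 0) = v 0
        rw [hv0, map_pow, hτ, hw0, mul_pow, ← map_pow, hζ, map_one, one_mul]
      · change τ (v 1) = v 1
        rw [hv1, hτ, hw1]
      · change τ (v 2) = v 2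
        rw [hv2, hτ, hw2]
      · change τ (v 3) = v 3
        rw [hv3, hτ, hw3]
    have hτK : ∀ x ∈ K, τ x = x := by
      intro x hx
      rw [hK] at hx
      obtain ⟨y, -, rfl⟩ := hx
      exact congrArg (fun f : L4 →ₐ[ℂ] L4 => f y) hτσ
    have h6 : (τ : L4 →+* L4).comp (algebraMap K L4) = algebraMap K L4 := by
      ext x
      exact hτK _ x.2
    have h7 := minpoly.aeval K (Uv 0)
    rw [Polynomial.aeval_def] at h7 ⊢
    have h8 := Polynomial.hom_eval₂ (minpoly K (Uv 0)) (algebraMap K L4) (τ : L4 →+* L4) (Uv 0)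
    rw [h7, map_zero, h6] at h8
    have h9 : (τ : L4 →+* L4) (Uv 0) = algebraMap ℂ L4 ζ * Uv 0 := (hτ 0).trans hw0
    rw [h9] at h8
    exact h8.symm
  have hge : k ≤ (minpoly K (Uv 0)).natDegree := by
    have hprim := Complex.isPrimitiveRoot_exp k hk.ne'
    obtain ⟨ζ, hζ⟩ : ∃ ζ, ζ = Complex.exp (2 * Real.pi * Complex.I / k) := ⟨_, rfl⟩
    rw [← hζ] at hprim
    classical
    have hne : (minpoly K (Uv 0)).map (algebraMap K L4) ≠ 0 :=
      ((minpoly.monic hint).map _).ne_zero
    have hcard : (Finset.univ.image fun i : Fin k => algebraMap ℂ L4 (ζ ^ (i : ℕ)) * Uv 0).card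
        = k := by
      rw [Finset.card_image_of_injective, Finset.card_univ, Fintype.card_fin]
      intro i j hij
      have h5 := mul_right_cancel₀ hU0 hij
      have h6 := (algebraMap ℂ L4).injective h5
      exact Fin.ext (hprim.pow_inj i.2 j.2 h6)
    have hsub : (Finset.univ.image fun i : Fin k => algebraMap ℂ L4 (ζ ^ (i : ℕ)) * Uv 0) ⊆
        ((minpoly K (Uv 0)).map (algebraMap K L4)).roots.toFinset := by
      intro x hx
      obtain ⟨i, -, rfl⟩ := Finset.mem_image.1 hx
      rw [Multiset.mem_toFinset, Polynomial.mem_roots hne, Polynomial.IsRoot.def,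
        Polynomial.eval_map_algebraMap]
      apply hroot
      rw [← pow_mul, mul_comm, pow_mul, hprim.pow_eq_one, one_pow]
    calc k = _ := hcard.symm
      _ ≤ _ := Finset.card_le_card hsub
      _ ≤ ((minpoly K (Uv 0)).map (algebraMap K L4)).roots.card := Multiset.toFinset_card_le _
      _ ≤ ((minpoly K (Uv 0)).map (algebraMap K L4)).natDegree := Polynomial.card_roots' _
      _ = _ := Polynomial.natDegree_map _
  rw [hfr]
  omega

/-- multiplying the degree of a parametrization -/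
theorem hasParam_mul {A : Type} [CommRing A] [Algebra ℂ A] {d : ℕ} (h : HasParam A 4 d) (k : ℕ)
    (hk : 0 < k) : HasParam A 4 (d * k) := by
  obtain ⟨φ, hφ, hd⟩ := h
  obtain ⟨σ, hσ⟩ := exists_pow_endo k hk
  refine ⟨σ.comp φ, (σ : L4 →+* L4).injective.comp hφ, ?_⟩
  have h1 : Set.range (σ.comp φ) = σ '' Set.range φ := by
    ext x
    constructor
    · rintro ⟨a, rfl⟩
      exact ⟨φ a, ⟨a, rfl⟩, rfl⟩
    · rintro ⟨_, ⟨a, rfl⟩, rfl⟩
      exact ⟨a, rfl⟩
  obtain ⟨M, hM⟩ : ∃ M : IntermediateField ℂ L4, M = IntermediateField.adjoin ℂ (Set.range φ) :=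
    ⟨_, rfl⟩
  have h2 : IntermediateField.adjoin ℂ (Set.range (σ.comp φ)) = M.map σ := by
    rw [h1, hM, IntermediateField.adjoin_map]
  have h3 : Module.finrank (M.map σ) L4 = d * k := by
    have h4 : M.map σ ≤ (⊤ : IntermediateField ℂ L4).map σ := by
      rintro _ ⟨x, _, rfl⟩
      exact ⟨x, IntermediateField.mem_top, rfl⟩
    rw [← IntermediateField.relfinrank_mul_finrank_top h4, hσ,
      IntermediateField.relfinrank_map_map, IntermediateField.relfinrank_top_right, hM]
    congr 1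
  rw [← h3]
  exact congrArg (fun M' : IntermediateField ℂ L4 => Module.finrank M' L4) h2

end Pool.Agent.Y153.CDR
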