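import Pool.Agent.Y153.CDR.Def
import Pool.Agent.Y153.CDR.G1
import Pool.Agent.Y153.CDR.G2
import Pool.Agent.Y153.CDR.G3
import Pool.Agent.Y153.CDR.G4
import Pool.Agent.Y153.CDR.G5

/-!
Assembly.
-/

set_option autoImplicit false

namespace Pool.Agent.Y153.CDR

open Pool.Agent.Helper346.CD

theorem hyp_eq (r : Fin 16 → ℂ) : hyp r = fR r := rfl

theorem hasParam_ofR {r : Fin 16 → ℂ} {k : ℕ} (h : ∃ (e : Fin 3 → L4) (y z : L4),
    y ^ 2 - disc3 e * z ^ 2 = Fp r e ∧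
    Algebra.IsAlgebraic (IntermediateField.adjoin ℂ (Set.range e ∪ {z})) L4 ∧
    Module.finrank (IntermediateField.adjoin ℂ (Set.range e ∪ {y, z})) L4 = k) :
    HasParam (HypRing 4 (fR r)) 4 k := by
  obtain ⟨e, y, z, hrel, halg, hk⟩ := h
  obtain ⟨φ, hφ, hadj⟩ := hom_of_relR r e y z hrel halg
  refine ⟨φ, hφ, ?_⟩
  rw [← hk]
  exact congrArg (fun M : IntermediateField ℂ L4 => Module.finrank M L4) hadj

theorem main (r : Fin 16 → ℂ) (hr : Function.Injective r) : Irreducible (hyp r) ∧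
    (∀ d : ℕ, 0 < d → 2 ∣ d ∨ 3 ∣ d → HasParam (HypRing 4 (hyp r)) 4 d) ∧
    ¬ IsRat (HypRing 4 (hyp r)) 4 := by
  rw [hyp_eq]
  refine ⟨fR_irreducible r, fun d hd h => ?_, not_isRatR r hr⟩
  rcases h with ⟨k, rfl⟩ | ⟨k, rfl⟩
  · exact hasParam_mul (hasParam_ofR (Pool.Agent.Y153.CDR.param2 r hr)) k (by omega)
  · exact hasParam_mul (hasParam_ofR (Pool.Agent.Y153.CDR.param3 r hr)) k (by omega)

end Pool.Agent.Y153.CDR
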